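import Pool.Agent.Q107.OD.Final

set_option autoImplicit false

namespace Pool.Agent.Results.MP_ec0d67_nt.ModSeven

open Finset Classical

/-- no odd part of the partition is repeated -/
def OddDistinct {m : ℕ} (p : m.Partition) : Prop := ∀ k : ℕ, Odd k → p.parts.count k ≤ 1

/-- the sum of the odd parts minus the sum of the even parts, counted with multiplicity -/
def weight {m : ℕ} (p : m.Partition) : ℤ :=
  (p.parts.map fun k : ℕ => if Odd k then (k : ℤ) else -(k : ℤ)).sum

/-- `S(m)`: the sum of the weights of all odd-distinct partitions of `m` -/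
noncomputable def S (m : ℕ) : ℤ := ∑ p : m.Partition with OddDistinct p, weight p

/-- `S(7n)` and `S(7n+5)` are divisible by `7` for all `n`. -/
theorem result : ∀ n : ℕ, (7 : ℤ) ∣ S (7 * n) ∧ (7 : ℤ) ∣ S (7 * n + 5) := by
  intro n
  constructor
  · exact Pool.Agent.Q107.OD.S_dvd (7 * n) (by omega)
  · exact Pool.Agent.Q107.OD.S_dvd (7 * n + 5) (by omega)

end Pool.Agent.Results.MP_ec0d67_nt.ModSeven
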